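import Pool.Agent.Helper85.ES.StI1
import Pool.Agent.Helper79.EP.M_CNW
import Pool.Agent.Helper27.EP.M_CND

/-!
# Project ES (MP_cb927e_an), part I, modules OEX, ONW, ONC, OND (after CNW by helper79, CNC and CND by helper27)
-/

set_option autoImplicit false

open MeasureTheory Set Filter Topology

namespace Pool.Agent.Helper85.ES

open Pool.Agent.Helper61.EP (Nn D8)
open Pool.Agent.Helper20.RG Pool.Agent.Helper20.RL
open Pool.Agent.Helper65.RL
open Pool.Agent.Helper79.EP (expW0 expW1 expW2 main_le)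
open Pool.Agent.Helper27.EP (nn_pos nn_inv nn_eta)

theorem hOEX : StOEX := by
  rintro p s e ⟨hp1, hp2, hpp, he0, he1, hs1, hs2⟩
  have h1 : 13 / 10 < p := by nlinarith
  have h2 : p < 131 / 100 := by nlinarith
  refine ⟨⟨by linarith, hs2, hp2, by linarith, by linarith, ?_⟩, h1, h2, by linarith⟩
  have hp0 : 0 < p := by linarith
  have h3 : 3 * (p - 1 + e / 100) / (2 * p) = (p + 1) / 2 * (p - 1 + e / 100) := by
    rw [div_eq_iff (by positivity)]
    have : (p + 1) / 2 * (p - 1 + e / 100) * (2 * p) = (p ^ 2 + p) * (p - 1 + e / 100) := by ring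
    rw [this, hpp]
  rw [h3]
  nlinarith

theorem hONW : StONW := by
  constructor
  · rintro A p s γ ε Cf hA ⟨hs1, hsp, hp2, hγ0, hγp, hex⟩ hε hCf
    have hp1 : 1 < p := by linarith
    have hp0 : 0 < p := by linarith
    have hp3 : 0 < 1 - 1 / p := by
      have : 1 / p < 1 := by rw [div_lt_one hp0]; exact hp1
      linarith
    set e₀ := max (p - ε * (1 - 1 / p)) (max (p - (s - 1) / 2) (2 + γ - 3 * γ / (2 * p) - s / 2))
      with he₀
    have he : e₀ < p := by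
      refine max_lt ?_ (max_lt (by linarith) hex)
      have : 0 < ε * (1 - 1 / p) := mul_pos hε hp3
      linarith
    have hP₀ : 0 ≤ 10 ^ 6 * Cf * ((1 + A) + (1 + A) ^ 2) := by positivity
    obtain ⟨C, ε', hC, hε', h⟩ := fin_step (q := p) (e := e₀) 5 he hP₀
    refine ⟨C, ε', hC, hε', fun u b K hu hb hK hor => h u _ ?_⟩
    have hu' : (0 : ℝ) < u := by exact_mod_cast hu
    have hβ1 : γ ≤ (b : ℝ) / u := by
      rw [le_div_iff₀ hu']; exact hb.le
    have hWM : min (10 ^ 6 * (u : ℝ) ^ 5 * 2 ^ b) (K : ℝ) ≤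
        10 ^ 6 * Cf * (u : ℝ) ^ 5 * X u (min ((b : ℝ) / u) (p - ε)) := by
      rcases hor with h1 | h1
      · have h2 : (b : ℝ) / u ≤ p - ε := by rw [div_le_iff₀ hu']; exact h1
        have h3 := W_le (u := u) (b := b) (K := K) (σ := p) (Cf := Cf) hu hCf hK
        rw [min_eq_left (by linarith : (b : ℝ) / u ≤ p)] at h3
        rw [min_eq_left h2]
        exact h3
      · exact W_le (u := u) (b := b) (K := K) (σ := p - ε) (Cf := Cf) hu hCf h1
    have hx1 := expW1 (β := (b : ℝ) / u) hp1 hε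
    have hx2 := expW2 (s := s) hp1 hβ1 hγ0
    have hmin : min ((b : ℝ) / u) (p - ε) ≤ min ((b : ℝ) / u) p :=
      min_le_min_left _ (by linarith)
    refine main_le hA hp1 hCf hu (le_min (by positivity) (Nat.cast_nonneg K)) hWM
      (hx1.trans (le_max_left _ _)) (le_trans ?_ (hx2.trans (le_max_right _ _)))
    linarith
  · rintro A p s γ κ Cf hA ⟨hs1, hsp, hp2, hγ0, hγp, hex⟩ hκ hCf
    have hp1 : 1 < p := by linarith
    obtain ⟨C, hC, h⟩ := poly 5 hκ
    have hP₀ : 0 < 10 ^ 6 * Cf * ((1 + A) + (1 + A) ^ 2) := by positivity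
    refine ⟨10 ^ 6 * Cf * ((1 + A) + (1 + A) ^ 2) * C, by positivity, fun u b K hu hb hK => ?_⟩
    have hu' : (0 : ℝ) < u := by exact_mod_cast hu
    have hβ1 : γ ≤ (b : ℝ) / u := by
      rw [le_div_iff₀ hu']; exact hb.le
    have hW := W_le (u := u) (b := b) (K := K) (σ := p) (Cf := Cf) hu hCf hK
    have hx1 := expW0 (β := (b : ℝ) / u) hp1
    have hx2 := expW2 (s := s) hp1 hβ1 hγ0
    have hm : max (p - (s - 1) / 2) (2 + γ - 3 * γ / (2 * p) - s / 2) ≤ p :=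
      max_le (by linarith) hex.le
    refine (main_le (s := s) hA hp1 hCf hu (le_min (by positivity) (Nat.cast_nonneg K)) hW
      hx1 (hx2.trans hm)).trans ?_
    have hX : (2 : ℝ) ^ ((p + κ) * u) = X u p * X u κ := by rw [← X_add]; rfl
    rw [hX]
    have h1 := h u
    have h2 := X_pos u p
    calc 10 ^ 6 * Cf * ((1 + A) + (1 + A) ^ 2) * (u : ℝ) ^ 5 * X u p
        ≤ 10 ^ 6 * Cf * ((1 + A) + (1 + A) ^ 2) * (C * X u κ) * X u p := by gcongr
      _ = _ := by ring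

theorem hONC (hONW : StONW) : StONC := by
  intro A p s γ κ Cf ε e hA hEx hκ hCf hε he
  have hEx' := hEx
  obtain ⟨hs1, hsp, hp2, hγ0, hγp, hex⟩ := hEx
  have hp0 : 0 < p := by linarith
  set ε₂ : ℝ := min ε (p * e / 2) with hε₂
  have hε₂0 : 0 < ε₂ := lt_min hε (by positivity)
  obtain ⟨C₀, ε₁, hC₀, hε₁, hW⟩ := hONW.1 A p s γ ε₂ Cf hA hEx' hε₂0 hCf
  obtain ⟨u₀, hu₀⟩ := poly_ev 0 (δ := e / 2) (by linarith) (1000 * (1 + A))
  set P₀ : ℝ := 70 * (4 * (κ * 30000)) * C₀ with hP₀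
  have hP₀0 : 0 ≤ P₀ := by positivity
  obtain ⟨C, ε', hC, hε', h⟩ := fin_step (q := p) (e := p - 3 * ε₁ / 4) (P₀ := P₀) 1
    (by linarith) hP₀0
  refine ⟨u₀, ε₁ / 8, C, ε', by linarith, hC, hε', ?_⟩
  intro δ u b K η m₁ hδ hδ0 huu hu hN hb hK hor hcase
  refine h u _ ?_
  have hu' : (1 : ℝ) ≤ u := by exact_mod_cast hu
  have hu0' : (0 : ℝ) < u := by linarith
  have hm := nn_pos hN
  have h0 := hN.1
  have hinv := nn_eta hN
  have hi := nn_inv hN
  have hbig := hu₀ u huu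
  rw [pow_zero, mul_one] at hbig
  -- the condition of `CNW`
  have hcond : (b : ℝ) ≤ (p - ε₂) * u ∨ (K : ℝ) ≤ Cf * (2 : ℝ) ^ ((p - ε₂) * u) := by
    rcases hor with h1 | h1
    · left
      by_contra hcon
      push Not at hcon
      have hn := ns_le (u := u) (b := b) (A := A) (σ := p) hu hA hp0
      have hβ : max 0 (1 - (b : ℝ) / u / p) ≤ e / 2 := by
        apply max_le (by linarith)
        have h2 : p - ε₂ ≤ (b : ℝ) / u := by
          rw [le_div_iff₀ hu0']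
          exact hcon.le
        have h3 : ε₂ ≤ p * e / 2 := min_le_right _ _
        have h4 : 1 - e / 2 ≤ (b : ℝ) / u / p := by
          rw [le_div_iff₀ hp0]
          nlinarith
        linarith
      have hn2 : ns u b A p ≤ (1 + A) * X u (e / 2) :=
        hn.trans (mul_le_mul_of_nonneg_left (X_mono u hβ) (by linarith))
      have hXX : X u e = X u (e / 2) * X u (e / 2) := by rw [← X_add]; congr 1; ring
      have h5 : X u e ≤ m₁ := h1
      have hXp := X_pos u (e / 2)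
      have h1A : 1 ≤ X u (e / 2) := one_le_X u (by linarith)
      have h6 : 1000 * (1 + A) * X u (e / 2) ≤ X u e := by
        rw [hXX]
        exact mul_le_mul_of_nonneg_right hbig hXp.le
      have h8 : X u (e / 2) ≤ (1 + A) * X u (e / 2) :=
        le_mul_of_one_le_left hXp.le (by linarith)
      rcases hcase with h7 | h7
      · nlinarith
      · nlinarith
    · right
      refine h1.trans ?_
      apply mul_le_mul_of_nonneg_left _ (by linarith)
      apply Real.rpow_le_rpow_of_exponent_le (by norm_num)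
      apply mul_le_mul_of_nonneg_right _ hu0'.le
      have := min_le_left ε (p * e / 2)
      linarith
  have hWb := hW u b K hu hb hK hcond
  set n₁ := ns u b A p with hn₁
  have hn1 : 1 ≤ n₁ := one_le_ns hA
  set W := min (10 ^ 6 * (u : ℝ) ^ 5 * 2 ^ b) (K : ℝ) with hWdef
  have hW0 : 0 ≤ W := le_min (by positivity) (by positivity)
  have hmP : m₁ ≤ 1000 * n₁ := by
    rcases hcase with h1 | h1 <;> linarith
  set z := X u δ with hz
  have hz1 : 1 ≤ z := one_le_X u hδ.le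
  have hz0 : 0 < z := X_pos u δ
  have hinv' : 1 / η ≤ z * (1000 * n₁) := hinv.trans (by gcongr)
  have hX1 : X u (1 - s) ≤ 1 := (X_mono u (by linarith : 1 - s ≤ 0)).trans (X_zero u).le
  have hX10 := X_pos u (1 - s)
  set Y := X u ((1 - s) / 2) with hY
  have hY0 : 0 < Y := X_pos u _
  have h32 : n₁ ^ (3 / 2 : ℝ) = n₁ * Real.sqrt n₁ := rpow_three_half (by linarith)
  have hM : M1 κ u b A p (D8 s u) (η / 2) ≤
      κ * 30000 * ((u : ℝ) * z) * (n₁ + n₁ ^ (3 / 2 : ℝ) * Y) := by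
    refine (M1_le (q := s) (by linarith) hA h0).trans ?_
    rw [← hn₁, ← hY, h32]
    have hs := Real.sqrt_nonneg n₁
    have huz : 1 ≤ (u : ℝ) * z := one_le_mul_of_one_le_of_one_le hu' hz1
    have h1 : n₁ ≤ (u : ℝ) * z * n₁ := le_mul_of_one_le_left (by linarith) huz
    have h2 : 16 * X u (1 - s) * (1 / η) ≤ 16000 * ((u : ℝ) * z * n₁) := by
      calc 16 * X u (1 - s) * (1 / η) ≤ 16 * 1 * (z * (1000 * n₁)) := by gcongr
        _ = 16000 * (1 * z * n₁) := by ring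
        _ ≤ 16000 * ((u : ℝ) * z * n₁) := by gcongr
    have h3 : 6 * (u : ℝ) * Real.sqrt n₁ * Y * (1 / η) ≤
        6000 * ((u : ℝ) * z * (n₁ * Real.sqrt n₁ * Y)) := by
      calc 6 * (u : ℝ) * Real.sqrt n₁ * Y * (1 / η)
          ≤ 6 * (u : ℝ) * Real.sqrt n₁ * Y * (z * (1000 * n₁)) := by gcongr
        _ = _ := by ring
    have h4 : 0 ≤ (u : ℝ) * z * (n₁ * Real.sqrt n₁ * Y) := by positivity
    have h5 : 0 ≤ (u : ℝ) * z * n₁ := by positivity
    have h6 : n₁ + 16 * X u (1 - s) * (1 / η) + 6 * (u : ℝ) * Real.sqrt n₁ * Y * (1 / η) ≤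
        30000 * ((u : ℝ) * z) * (n₁ + n₁ * Real.sqrt n₁ * Y) := by
      have e7 : 30000 * ((u : ℝ) * z) * (n₁ + n₁ * Real.sqrt n₁ * Y) =
          30000 * ((u : ℝ) * z * n₁) + 30000 * ((u : ℝ) * z * (n₁ * Real.sqrt n₁ * Y)) := by ring
      rw [e7]
      linarith
    calc κ * (n₁ + 16 * X u (1 - s) * (1 / η) + 6 * (u : ℝ) * Real.sqrt n₁ * Y * (1 / η))
        ≤ κ * (30000 * ((u : ℝ) * z) * (n₁ + n₁ * Real.sqrt n₁ * Y)) :=
          mul_le_mul_of_nonneg_left h6 (by linarith)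
      _ = _ := by ring
  have hD8 : 0 ≤ D8 s u := by unfold D8; positivity
  have hM0 : 0 ≤ M1 κ u b A p (D8 s u) (η / 2) := M1_nonneg (by linarith) hA hD8 (by linarith)
  have e1 : 70 / (m₁ * η) = 70 * (1 / (m₁ * η)) := by ring
  rw [e1]
  have hYe : (2 : ℝ) ^ ((1 - s) / 2 * u) = Y := rfl
  rw [hYe] at hWb
  have hzz : z * z ≤ X u (ε₁ / 4) := by
    rw [hz, ← X_add]
    exact X_mono u (by linarith)
  have h33 : 0 ≤ n₁ ^ (3 / 2 : ℝ) := Real.rpow_nonneg (by linarith) _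
  have hXq := X_pos u (ε₁ / 4)
  calc 70 * (1 / (m₁ * η)) * W * (4 * M1 κ u b A p (D8 s u) (η / 2))
      ≤ 70 * z * W *
        (4 * (κ * 30000 * ((u : ℝ) * z) * (n₁ + n₁ ^ (3 / 2 : ℝ) * Y))) := by gcongr
    _ = 70 * (4 * (κ * 30000)) * (u : ℝ) * (z * z) * (W * (n₁ + n₁ ^ (3 / 2 : ℝ) * Y)) := by ring
    _ ≤ 70 * (4 * (κ * 30000)) * (u : ℝ) * X u (ε₁ / 4) * (C₀ * (2 : ℝ) ^ ((p - ε₁) * u)) := by
        gcongr
    _ = P₀ * (u : ℝ) ^ 1 * (X u (ε₁ / 4) * X u (p - ε₁)) := by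
        rw [hP₀, pow_one]
        change _ * (C₀ * X u (p - ε₁)) = _
        ring
    _ = P₀ * (u : ℝ) ^ 1 * X u (p - 3 * ε₁ / 4) := by
        rw [← X_add]
        congr 2
        ring

theorem hOND (hONW : StONW) : StOND := by
  intro A p s γ κ C₄ Cf hA hEx hκ hC₄ hCf
  have hEx' := hEx
  obtain ⟨hs1, hsp, hp2, hγ0, hγp, hex⟩ := hEx
  have hp0 : 0 < p := by linarith
  set g : ℝ := s - 1 with hg
  have hg0 : 0 < g := by linarith
  obtain ⟨C₀, hC₀, hW⟩ := hONW.2 A p s γ (g / 4) Cf hA hEx' (by linarith) hCf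
  set P₁ : ℝ := 42 * (10 ^ 6 * Cf) * (4 * (κ * (23 * (1 + A)))) with hP₁
  set P₂ : ℝ := C₄ * 168 * 86016 * (κ * 23) * C₀ with hP₂
  have hP₁0 : 0 ≤ P₁ := by positivity
  have hP₂0 : 0 ≤ P₂ := by positivity
  set e₀ : ℝ := max (p - 9 * g / 16) 0 with he₀
  have he : e₀ < p := max_lt (by linarith) (by linarith)
  obtain ⟨C, ε, hC, hε, h⟩ := fin_step (q := p) (e := e₀) (P₀ := P₁ + P₂) 6 he (by positivity)
  refine ⟨g / 16, C, ε, by linarith, hC, hε, ?_⟩
  intro δ u b K η m₁ hδ hδ0 hu hN hb hK hm1000 hm200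
  refine h u _ ?_
  have hu' : (1 : ℝ) ≤ u := by exact_mod_cast hu
  have hm := nn_pos hN
  have h0 := hN.1
  have hinv := nn_eta hN
  have hi := nn_inv hN
  have hml : m₁ ≤ X u 1 := by rw [X_one]; exact hN.2.2.2
  have hWb := hW u b K hu hb hK
  have hnsle := ns_le (u := u) (b := b) (A := A) (σ := p) hu hA hp0
  set n₁ := ns u b A p with hn₁
  have hn1 : 1 ≤ n₁ := one_le_ns hA
  set W := min (10 ^ 6 * (u : ℝ) ^ 5 * 2 ^ b) (K : ℝ) with hWdef
  have hW0 : 0 ≤ W := le_min (by positivity) (by positivity)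
  set z := X u (g / 16) with hz
  have hz1 : 1 ≤ z := one_le_X u (by linarith)
  have hz0 : 0 < z := X_pos u _
  have hδz : X u δ ≤ z := X_mono u hδ0
  have hinv : 1 / η ≤ z * m₁ := hinv.trans (mul_le_mul_of_nonneg_right hδz hm.le)
  have hi : 1 / (m₁ * η) ≤ z := hi.trans hδz
  have hX1 : X u (1 - s) ≤ 1 := (X_mono u (by linarith : 1 - s ≤ 0)).trans (X_zero u).le
  have hX10 := X_pos u (1 - s)
  set Y := X u ((1 - s) / 2) with hY
  have hY0 : 0 < Y := X_pos u _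
  have hY1 : Y ≤ 1 := (X_mono u (by linarith : (1 - s) / 2 ≤ 0)).trans (X_zero u).le
  have h32 : n₁ ^ (3 / 2 : ℝ) = n₁ * Real.sqrt n₁ := rpow_three_half (by linarith)
  have hs := Real.sqrt_nonneg n₁
  have hYe : (2 : ℝ) ^ ((1 - s) / 2 * u) = Y := rfl
  rw [hYe] at hWb
  have hD8 : 0 ≤ D8 s u := by unfold D8; positivity
  have hM0 : 0 ≤ M1 κ u b A p (D8 s u) (η / 2) := M1_nonneg (by linarith) hA hD8 (by linarith)
  have hM : M1 κ u b A p (D8 s u) (η / 2) ≤
      κ * (ns u b A p + 16 * X u (1 - s) * (1 / η) +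
        6 * (u : ℝ) * Real.sqrt (ns u b A p) * X u ((1 - s) / 2) * (1 / η)) :=
    M1_le (q := s) (by linarith) hA h0
  rw [← hn₁, ← hY] at hM
  set M := M1 κ u b A p (D8 s u) (η / 2) with hMdef
  have hT : 10752 * 2 ^ u * D8 s u / η = 86016 * X u (1 - s) / η := by
    unfold D8
    rw [X_def_neg, ← X_one, show (1 - s) = 1 + -s by ring, X_add]
    ring
  rw [hT]
  -- first term
  have hT1 : (1 / 2) ^ (16 * u) / (86016 * X u (1 - s) / η) * (42 / η) * W * (4 * M) ≤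
      P₁ * (u : ℝ) ^ 6 * X u e₀ := by
    have h1 : ((1 : ℝ) / 2) ^ (16 * u) = X u (-16) := by
      unfold X
      rw [one_div, inv_pow, ← Real.rpow_natCast, ← Real.rpow_neg (by norm_num)]
      congr 1
      push_cast
      ring
    have h2 : (1 / 2) ^ (16 * u) / (86016 * X u (1 - s) / η) * (42 / η) ≤ 42 * X u (-16 + g) := by
      rw [h1]
      have e1 : X u (-16) / (86016 * X u (1 - s) / η) * (42 / η) =
          42 / 86016 * (X u (-16) / X u (1 - s)) := by field_simp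
      have e2 : X u (-16) / X u (1 - s) = X u (-16 + g) := by
        rw [div_eq_iff hX10.ne', ← X_add]; congr 1; rw [hg]; ring
      rw [e1, e2]
      have := X_pos u (-16 + g)
      nlinarith
    have h3 : W ≤ 10 ^ 6 * Cf * (u : ℝ) ^ 5 * X u 2 := by
      refine (W_le (u := u) (b := b) (K := K) (σ := p) (Cf := Cf) hu hCf hK).trans ?_
      have : X u (min ((b : ℝ) / u) p) ≤ X u 2 := X_mono u ((min_le_right _ _).trans (by linarith))
      gcongr
    have hn1X : n₁ ≤ (1 + A) * X u 1 := by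
      refine hnsle.trans ?_
      have : X u (max 0 (1 - (b : ℝ) / u / p)) ≤ X u 1 := by
        apply X_mono
        have : 0 ≤ (b : ℝ) / u / p := by positivity
        exact max_le (by norm_num) (by linarith)
      exact mul_le_mul_of_nonneg_left this (by linarith)
    have hsn : Real.sqrt n₁ ≤ n₁ := by
      rw [Real.sqrt_le_left (by linarith)]
      nlinarith
    have hXone : 1 ≤ X u 1 := one_le_X u (by norm_num)
    have hzX : z ≤ X u 1 := X_mono u (by linarith)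
    have h4 : M ≤ κ * (23 * (1 + A)) * (u : ℝ) * X u 3 := by
      refine hM.trans ?_
      have e2 : X u 3 = X u 1 * X u 1 * X u 1 := by rw [← X_add, ← X_add]; norm_num
      have h8 : 1 / η ≤ X u 1 * X u 1 := hinv.trans (mul_le_mul hzX hml hm.le (by linarith))
      have h9 : (1 : ℝ) ≤ 1 + A := by linarith
      have h5 : n₁ ≤ (1 + A) * (u : ℝ) * X u 3 := by
        rw [e2]
        calc n₁ ≤ (1 + A) * X u 1 := hn1X
          _ = (1 + A) * 1 * (1 * 1 * X u 1) := by ring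
          _ ≤ (1 + A) * (u : ℝ) * (X u 1 * X u 1 * X u 1) := by gcongr
      have h6 : 16 * X u (1 - s) * (1 / η) ≤ 16 * (1 + A) * (u : ℝ) * X u 3 := by
        rw [e2]
        calc 16 * X u (1 - s) * (1 / η) ≤ 16 * 1 * (X u 1 * X u 1) := by gcongr
          _ = 16 * 1 * 1 * (X u 1 * X u 1 * 1) := by ring
          _ ≤ 16 * (1 + A) * (u : ℝ) * (X u 1 * X u 1 * X u 1) := by gcongr
      have h7 : 6 * (u : ℝ) * Real.sqrt n₁ * Y * (1 / η) ≤ 6 * (1 + A) * (u : ℝ) * X u 3 := by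
        rw [e2]
        calc 6 * (u : ℝ) * Real.sqrt n₁ * Y * (1 / η)
            ≤ 6 * (u : ℝ) * ((1 + A) * X u 1) * 1 * (X u 1 * X u 1) := by
              have h9 : Real.sqrt n₁ ≤ (1 + A) * X u 1 := hsn.trans hn1X
              gcongr
          _ = 6 * (1 + A) * (u : ℝ) * (X u 1 * X u 1 * X u 1) := by ring
      calc κ * (n₁ + 16 * X u (1 - s) * (1 / η) + 6 * (u : ℝ) * Real.sqrt n₁ * Y * (1 / η))
          ≤ κ * (23 * (1 + A) * (u : ℝ) * X u 3) := by
            apply mul_le_mul_of_nonneg_left _ (by linarith)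
            linarith
        _ = _ := by ring
    have hXa := X_pos u (-16 + g)
    have hXb := X_pos u 2
    have hXc := X_pos u 3
    have hXe : X u (-16 + g + 2 + 3) ≤ X u e₀ :=
      X_mono u (le_trans (by linarith) (le_max_right _ _))
    have e5 : X u (-16 + g + 2 + 3) = X u (-16 + g) * X u 2 * X u 3 := by
      rw [← X_add, ← X_add]
    calc (1 / 2) ^ (16 * u) / (86016 * X u (1 - s) / η) * (42 / η) * W * (4 * M)
        ≤ 42 * X u (-16 + g) * (10 ^ 6 * Cf * (u : ℝ) ^ 5 * X u 2) *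
          (4 * (κ * (23 * (1 + A)) * (u : ℝ) * X u 3)) := by gcongr
      _ = P₁ * (u : ℝ) ^ 6 * X u (-16 + g + 2 + 3) := by
          rw [e5, hP₁]
          generalize X u (-16 + g) = w
          ring
      _ ≤ P₁ * (u : ℝ) ^ 6 * X u e₀ := by gcongr
  -- second term
  have hT2 : u * C₄ * n₁ * (86016 * X u (1 - s) / η) / m₁ ^ 3 * (42 / η) * W * (4 * M) ≤
      P₂ * (u : ℝ) ^ 6 * X u e₀ := by
    have huz : 1 ≤ (u : ℝ) * z := one_le_mul_of_one_le_of_one_le hu' hz1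
    have h1 : n₁ / m₁ * M ≤ κ * 23 * ((u : ℝ) * z) * (n₁ + n₁ ^ (3 / 2 : ℝ) * Y) := by
      have h2 : n₁ / m₁ * M ≤ n₁ / m₁ * (κ * (n₁ + 16 * X u (1 - s) * (1 / η) +
          6 * (u : ℝ) * Real.sqrt n₁ * Y * (1 / η))) :=
        mul_le_mul_of_nonneg_left hM (by positivity)
      refine h2.trans ?_
      rw [h32]
      have e1 : n₁ / m₁ * (κ * (n₁ + 16 * X u (1 - s) * (1 / η) +
          6 * (u : ℝ) * Real.sqrt n₁ * Y * (1 / η))) =
          κ * (n₁ * (n₁ / m₁) + 16 * n₁ * X u (1 - s) * (1 / (m₁ * η)) +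
            6 * (u : ℝ) * (n₁ * Real.sqrt n₁) * Y * (1 / (m₁ * η))) := by
        field_simp
      rw [e1]
      have h3 : n₁ / m₁ ≤ 1 := by rw [div_le_one hm]; linarith
      have h4 : n₁ * (n₁ / m₁) ≤ (u : ℝ) * z * n₁ := by
        calc n₁ * (n₁ / m₁) ≤ n₁ * 1 := mul_le_mul_of_nonneg_left h3 (by linarith)
          _ = 1 * n₁ := by ring
          _ ≤ (u : ℝ) * z * n₁ := by gcongr
      have h5 : 16 * n₁ * X u (1 - s) * (1 / (m₁ * η)) ≤ 16 * ((u : ℝ) * z * n₁) := by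
        calc 16 * n₁ * X u (1 - s) * (1 / (m₁ * η)) ≤ 16 * n₁ * 1 * z := by gcongr
          _ = 16 * (1 * z * n₁) := by ring
          _ ≤ 16 * ((u : ℝ) * z * n₁) := by gcongr
      have h6 : 6 * (u : ℝ) * (n₁ * Real.sqrt n₁) * Y * (1 / (m₁ * η)) ≤
          6 * ((u : ℝ) * z * (n₁ * Real.sqrt n₁ * Y)) := by
        calc 6 * (u : ℝ) * (n₁ * Real.sqrt n₁) * Y * (1 / (m₁ * η))
            ≤ 6 * (u : ℝ) * (n₁ * Real.sqrt n₁) * Y * z := by gcongr
          _ = _ := by ring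
      have h9 : 0 ≤ (u : ℝ) * z * (n₁ * Real.sqrt n₁ * Y) := by positivity
      have h10 : 0 ≤ (u : ℝ) * z * n₁ := by positivity
      calc κ * (n₁ * (n₁ / m₁) + 16 * n₁ * X u (1 - s) * (1 / (m₁ * η)) +
            6 * (u : ℝ) * (n₁ * Real.sqrt n₁) * Y * (1 / (m₁ * η)))
          ≤ κ * (23 * ((u : ℝ) * z * n₁) + 23 * ((u : ℝ) * z * (n₁ * Real.sqrt n₁ * Y))) := by
            apply mul_le_mul_of_nonneg_left _ (by linarith)
            linarith
        _ = _ := by ring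
    have e2 : u * C₄ * n₁ * (86016 * X u (1 - s) / η) / m₁ ^ 3 * (42 / η) * W * (4 * M) =
        C₄ * 168 * 86016 * (u : ℝ) * X u (1 - s) * (1 / (m₁ * η)) ^ 2 * W * (n₁ / m₁ * M) := by
      field_simp
      ring
    rw [e2]
    have h11 : (1 / (m₁ * η)) ^ 2 ≤ z ^ 2 := pow_le_pow_left₀ (by positivity) hi 2
    have h12 : 0 ≤ n₁ / m₁ * M := by positivity
    have h13 : 0 ≤ n₁ ^ (3 / 2 : ℝ) := Real.rpow_nonneg (by linarith) _
    have hXe : X u (1 - s) * (z ^ 2 * z) * X u (p + g / 4) ≤ X u e₀ := by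
      have e3 : X u (1 - s) * (z ^ 2 * z) * X u (p + g / 4) = X u (p - 9 * g / 16) := by
        rw [hz, sq, ← X_add, ← X_add, ← X_add, ← X_add]
        congr 1
        rw [hg]
        ring
      rw [e3]
      exact X_mono u (le_max_left _ _)
    have h26 : (u : ℝ) ^ 2 ≤ (u : ℝ) ^ 6 := pow_le_pow_right₀ hu' (by norm_num)
    have hXe0 := X_pos u e₀
    have hXp := X_pos u (p + g / 4)
    calc C₄ * 168 * 86016 * (u : ℝ) * X u (1 - s) * (1 / (m₁ * η)) ^ 2 * W * (n₁ / m₁ * M)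
        ≤ C₄ * 168 * 86016 * (u : ℝ) * X u (1 - s) * z ^ 2 * W *
          (κ * 23 * ((u : ℝ) * z) * (n₁ + n₁ ^ (3 / 2 : ℝ) * Y)) := by gcongr
      _ = C₄ * 168 * 86016 * (κ * 23) * (u : ℝ) ^ 2 * (X u (1 - s) * (z ^ 2 * z)) *
          (W * (n₁ + n₁ ^ (3 / 2 : ℝ) * Y)) := by ring
      _ ≤ C₄ * 168 * 86016 * (κ * 23) * (u : ℝ) ^ 2 * (X u (1 - s) * (z ^ 2 * z)) *
          (C₀ * (2 : ℝ) ^ ((p + g / 4) * u)) := by gcongr
      _ = P₂ * (u : ℝ) ^ 2 * (X u (1 - s) * (z ^ 2 * z) * X u (p + g / 4)) := by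
          rw [hP₂]
          change _ * (C₀ * X u (p + g / 4)) = _
          ring
      _ ≤ P₂ * (u : ℝ) ^ 6 * X u e₀ := by gcongr
  calc ((1 / 2) ^ (16 * u) / (86016 * X u (1 - s) / η) +
      u * C₄ * n₁ * (86016 * X u (1 - s) / η) / m₁ ^ 3) * (42 / η) * W * (4 * M)
      = (1 / 2) ^ (16 * u) / (86016 * X u (1 - s) / η) * (42 / η) * W * (4 * M) +
        u * C₄ * n₁ * (86016 * X u (1 - s) / η) / m₁ ^ 3 * (42 / η) * W * (4 * M) := by ring
    _ ≤ P₁ * (u : ℝ) ^ 6 * X u e₀ + P₂ * (u : ℝ) ^ 6 * X u e₀ := add_le_add hT1 hT2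
    _ = (P₁ + P₂) * (u : ℝ) ^ 6 * X u e₀ := by ring


end Pool.Agent.Helper85.ES
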