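import Pool.Agent.Helper13.ES.M_OCE
import Pool.Agent.Helper19.ES.M_ODE
import Pool.Agent.Helper34.ES.M_OSC
import Pool.Agent.Helper36.ES.M_OVL
import Pool.Agent.Helper47.ES.M_OCP
import Pool.Agent.Helper47.ES.M_OCT
import Pool.Agent.Helper51.ES.M_OIF
import Pool.Agent.Helper64.ES.M_OCL
import Pool.Agent.Helper68.EP.Asm
import Pool.Agent.Helper72.ES.M_OWD
import Pool.Agent.Helper75.ES.M_OEG
import Pool.Agent.Helper75.ES.M_OTR
import Pool.Agent.Helper80.ES.M_ONE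
import Pool.Agent.Helper83.ES.M_OLV
import Pool.Agent.Helper83.ES.M_OPW
import Pool.Agent.Helper85.ES.M_OCN
import Pool.Agent.Helper94.ES.M_ONB

/-!
# Project ES (MP_cb927e_an), part I: assembly, `StOI`
-/

set_option autoImplicit false

namespace Pool.Agent.Helper85.ES

theorem pOEX : Pool.Agent.Helper85.ES.StOEX := Pool.Agent.Helper85.ES.hOEX

theorem pONW : Pool.Agent.Helper85.ES.StONW := Pool.Agent.Helper85.ES.hONW

theorem pONC : Pool.Agent.Helper85.ES.StONC := Pool.Agent.Helper85.ES.hONC pONW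

theorem pOND : Pool.Agent.Helper85.ES.StOND := Pool.Agent.Helper85.ES.hOND pONW

theorem pOWD : Pool.Agent.Helper85.ES.StOWD :=
  Pool.Agent.Helper72.ES.hOWD Pool.Agent.Helper20.RL.pLGR

theorem pOCL : Pool.Agent.Helper85.ES.StOCL :=
  Pool.Agent.Helper64.ES.hOCL Pool.Agent.Helper20.RG.pPT Pool.Agent.Helper20.RL.pLGR Pool.Agent.Helper68.EP.pECR pOWD

theorem pOCP : Pool.Agent.Helper85.ES.StOCP :=
  Pool.Agent.Helper47.ES.hOCP Pool.Agent.Helper20.RL.pLGR Pool.Agent.Helper20.RL.pLFM Pool.Agent.Helper20.RL.pLLM pOCL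

theorem pONB : Pool.Agent.Helper85.ES.StONB :=
  Pool.Agent.Helper94.ES.hONB 

theorem pONX : Pool.Agent.Helper85.ES.StONX :=
  Pool.Agent.Helper94.ES.hONX 

theorem pONE : Pool.Agent.Helper85.ES.StONE :=
  Pool.Agent.Helper80.ES.hONE 

theorem pONI : Pool.Agent.Helper85.ES.StONI :=
  Pool.Agent.Helper80.ES.hONI 

theorem pONN : Pool.Agent.Helper85.ES.StONN :=
  Pool.Agent.Helper80.ES.hONN 

theorem pOCT : Pool.Agent.Helper85.ES.StOCT :=
  Pool.Agent.Helper47.ES.hOCT Pool.Agent.Helper20.RL.pLLM Pool.Agent.Helper20.RL.pPCI Pool.Agent.Helper20.RL.pLPA Pool.Agent.Helper20.RL.pPPB Pool.Agent.Helper20.RL.pLXM Pool.Agent.Helper20.RL.pPXR Pool.Agent.Helper68.EP.pCNA Pool.Agent.Helper68.EP.pCNB pOEX pONC pOND pONB pONX pONE pONI pONN pOCP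

theorem pOCE : Pool.Agent.Helper85.ES.StOCE :=
  Pool.Agent.Helper13.ES.hOCE Pool.Agent.Helper20.RL.pLPG pOCT

theorem pOSC : Pool.Agent.Helper85.ES.StOSC :=
  Pool.Agent.Helper34.ES.hOSC Pool.Agent.Helper20.RL.pLRS pOCE

theorem pOEG : Pool.Agent.Helper85.ES.StOEG :=
  Pool.Agent.Helper75.ES.hOEG Pool.Agent.Helper68.EP.pEFB

theorem pOLV : Pool.Agent.Helper85.ES.StOLV :=
  Pool.Agent.Helper83.ES.hOLV pOEX pOEG pOSC

theorem pOTR : Pool.Agent.Helper85.ES.StOTR :=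
  Pool.Agent.Helper75.ES.hOTR Pool.Agent.Helper20.RL.pLGR Pool.Agent.Helper20.RL.pLFM Pool.Agent.Helper20.RL.pLER pOEG

theorem pODE : Pool.Agent.Helper85.ES.StODE :=
  Pool.Agent.Helper19.ES.hODE Pool.Agent.Helper20.RG.pPT Pool.Agent.Helper20.RG.pMEA Pool.Agent.Helper20.RG.pYB Pool.Agent.Helper20.RL.pLAM Pool.Agent.Helper68.EP.pEFB Pool.Agent.Helper68.EP.pCFB pOEG

theorem pOVL : Pool.Agent.Helper85.ES.StOVL :=
  Pool.Agent.Helper36.ES.hOVL Pool.Agent.Helper20.RG.pYB Pool.Agent.Helper20.RL.pLGY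

theorem pOPW : Pool.Agent.Helper85.ES.StOPW :=
  Pool.Agent.Helper83.ES.hOPW Pool.Agent.Helper20.RG.pYB pODE pOVL pOEG

theorem pOIF : Pool.Agent.Helper85.ES.StOIF :=
  Pool.Agent.Helper51.ES.hOIF Pool.Agent.Helper20.RG.pMM Pool.Agent.Helper20.RG.pSYS Pool.Agent.Helper68.EP.pLSQ pOEX pOLV pOTR pOPW

/-- output of part I -/
theorem pOI : Pool.Agent.Helper68.ES.StOI := pOIF

end Pool.Agent.Helper85.ES
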