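import Pool.Agent.Helper68.ES.Defs

/-!
# Project ES (MP_cb927e_an), part I: numbers and crossings

Part I proves `StOI` (`Pool.Agent.Helper68.ES.Defs`).  `N = 2^u`, `D = 2^(-su)`, `D8 s u = 8·2^(-su)`, `p² + p = 3`, so `13/10 < p < 131/100`, and `s` is very close to `p`.
The middle range is `|b - (p-1)u| ≤ (e/100)u`; there the ridge theorem (many directions) still has room, few directions have room if the value level `i` is at most `(1/p - e/4)u`, and if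
`i` is larger and the age level `q` is at least `(p-1+e)u`, the crossings of the ridges at the very small scales are used.
-/

set_option autoImplicit false

open MeasureTheory Set Filter Topology
open scoped ENNReal RealInnerProductSpace

namespace Pool.Agent.Helper85.ES

open Pool.Agent.Helper68.LM (Pl BB Bd Av HL ft fm DQ)
open Pool.Agent.Helper20.RG
open Pool.Agent.Helper20.RL
open Pool.Agent.Helper68.EP (Fb DQ3 Par Dat Sy q0 q1 DD Fo Rs)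
open Pool.Agent.Helper61.EP (Nn D8 trS dat Yc)
open Pool.Agent.Helper68.ES (ag Eg th Rc hn Crit cr Lw)

/-- the exponents (as `Ex2`, but with `γ < p` in place of `γ < p - 1`) -/
def Ex3 (p s γ : ℝ) : Prop :=
  1 < s ∧ s < p ∧ p < 2 ∧ 0 < γ ∧ γ < p ∧ 2 + γ - 3 * γ / (2 * p) - s / 2 < p

/-- `p² + p = 3`, `e` small, `s` very close to `p` -/
def Sm (p s e : ℝ) : Prop :=
  1 < p ∧ p < 2 ∧ p ^ 2 + p = 3 ∧ 0 < e ∧ e ≤ 1 / 100 ∧ p - e / 1000 < s ∧ s < p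

/-! ## Numbers -/

/-- OEX (about 40 lines).  `1.3² + 1.3 < 3 < 1.31² + 1.31`.  With `d = e/100`: `2 + (p-1+d) - 3(p-1+d)/(2p) - s/2 < (p/2 - 1/2 + 3/(2p)) + d (1 - 3/(2p)) + e/2000`, `3/(2p) = (p+1)/2`, so this is `p - d (p-1)/2 + e/2000 < p`.  Hypotheses: none. -/
def StOEX : Prop :=
  ∀ p s e : ℝ, Sm p s e → Ex3 p s (p - 1 + e / 100) ∧ 13 / 10 < p ∧ p < 131 / 100 ∧ 129 / 100 < s

/-- ONW.  Exactly `StCNW` of `Pool.Agent.Helper61.EP.StC` with `Ex3` (the proof does not use `γ < p - 1`).  Hypotheses: none. -/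
def StONW : Prop :=
  (∀ A p s γ ε Cf : ℝ, 0 ≤ A → Ex3 p s γ → 0 < ε → 1 ≤ Cf →
    ∃ C ε' : ℝ, 0 < C ∧ 0 < ε' ∧ ∀ u b K : ℕ, 1 ≤ u → γ * u < b → (K : ℝ) ≤ Cf * (2 : ℝ) ^ (p * u) →
    ((b : ℝ) ≤ (p - ε) * u ∨ (K : ℝ) ≤ Cf * (2 : ℝ) ^ ((p - ε) * u)) →
    min (10 ^ 6 * (u : ℝ) ^ 5 * 2 ^ b) (K : ℝ) *
      (ns u b A p + (ns u b A p) ^ (3 / 2 : ℝ) * (2 : ℝ) ^ ((1 - s) / 2 * u)) ≤
      C * (2 : ℝ) ^ ((p - ε') * u)) ∧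
  ∀ A p s γ κ Cf : ℝ, 0 ≤ A → Ex3 p s γ → 0 < κ → 1 ≤ Cf →
    ∃ C : ℝ, 0 < C ∧ ∀ u b K : ℕ, 1 ≤ u → γ * u < b → (K : ℝ) ≤ Cf * (2 : ℝ) ^ (p * u) →
    min (10 ^ 6 * (u : ℝ) ^ 5 * 2 ^ b) (K : ℝ) *
      (ns u b A p + (ns u b A p) ^ (3 / 2 : ℝ) * (2 : ℝ) ^ ((1 - s) / 2 * u)) ≤
      C * (2 : ℝ) ^ ((p + κ) * u)

/-- ONC.  Exactly `StCNC` of `Pool.Agent.Helper61.EP.StC` with `Ex3`.  Hypotheses: hONW. -/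
def StONC : Prop :=
  ∀ A p s γ κ Cf ε e : ℝ, 0 ≤ A → Ex3 p s γ → 1 ≤ κ → 1 ≤ Cf → 0 < ε → 0 < e →
    ∃ (u₀ : ℕ) (δ₀ C ε' : ℝ), 0 < δ₀ ∧ 0 < C ∧ 0 < ε' ∧
    ∀ (δ : ℝ) (u b K : ℕ) (η m₁ : ℝ), 0 < δ → δ ≤ δ₀ → u₀ ≤ u → 1 ≤ u → Nn u δ η m₁ → γ * u < b →
    (K : ℝ) ≤ Cf * (2 : ℝ) ^ (p * u) →
    ((2 : ℝ) ^ (e * u) ≤ m₁ ∨ (K : ℝ) ≤ Cf * (2 : ℝ) ^ ((p - ε) * u)) →
    (m₁ < 1000 ∨ m₁ < 200 * ns u b A p) →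
    70 / (m₁ * η) * min (10 ^ 6 * (u : ℝ) ^ 5 * 2 ^ b) (K : ℝ) *
      (4 * M1 κ u b A p (D8 s u) (η / 2)) ≤ C * (2 : ℝ) ^ ((p - ε') * u)

/-- OND.  Exactly `StCND` of `Pool.Agent.Helper61.EP.StC` with `Ex3`.  Hypotheses: hONW. -/
def StOND : Prop :=
  ∀ A p s γ κ C₄ Cf : ℝ, 0 ≤ A → Ex3 p s γ → 1 ≤ κ → 1 ≤ C₄ → 1 ≤ Cf →
    ∃ δ₀ C ε' : ℝ, 0 < δ₀ ∧ 0 < C ∧ 0 < ε' ∧
    ∀ (δ : ℝ) (u b K : ℕ) (η m₁ : ℝ), 0 < δ → δ ≤ δ₀ → 1 ≤ u → Nn u δ η m₁ → γ * u < b →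
    (K : ℝ) ≤ Cf * (2 : ℝ) ^ (p * u) → 1000 ≤ m₁ → 200 * ns u b A p ≤ m₁ →
    ((1 / 2) ^ (16 * u) / (10752 * 2 ^ u * D8 s u / η) +
      u * C₄ * ns u b A p * (10752 * 2 ^ u * D8 s u / η) / m₁ ^ 3) * (42 / η) *
      min (10 ^ 6 * (u : ℝ) ^ 5 * 2 ^ b) (K : ℝ) *
      (4 * M1 κ u b A p (D8 s u) (η / 2)) ≤ C * (2 : ℝ) ^ ((p - ε') * u)

/-- ONB (about 130 lines), middle range, many directions.  `2^u D8 = 8·2^((1-s)u)`, `1/(m₁ η) ≤ 2^(δu)`.  First term: `(1/2)^(16u) η/(86016·2^((1-s)u)) · 42/η ≤ 2^(-16u) 2^((s-1)u) ≤ 2^(-15u)`; times `10^6 u^5 2^b 2^u ≤ 10^6 u^5 2^(2u)` (`b ≤ u`): at most `10^6 u^5 2^(-13u) ≤ C`.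
Second term: `u C₄ ns (86016·2^((1-s)u)/η)/m₁³·42/η = 42·86016 C₄ u 2^((1-s)u) (ns/m₁)/(m₁ η)² ≤ 2·10^4·C₄ u 2^((1-s+2δ)u)` (`ns/m₁ ≤ 1/200`); times `10^6 u^5 2^b 2^u`: at most `C u^6 2^((1-s+2δ+p-1+e/100+1)u)` and `1 + (p-s) + 2δ + e/100 ≤ 104/100 < p - 1/10` (`p > 13/10`).
`u^6 ≤ C 2^(u/20)`.  (`13/10 < p` follows from `p² + p = 3`, `p > 1`.)  Hypotheses: none. -/
def StONB : Prop :=
  ∀ A p s e C₄ : ℝ, 0 ≤ A → Sm p s e → 1 ≤ C₄ → ∃ C ε' : ℝ, 0 < C ∧ 0 < ε' ∧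
    ∀ (δ : ℝ) (u b : ℕ) (η m₁ : ℝ), 0 < δ → δ ≤ 1 / 100 → 1 ≤ u → Nn u δ η m₁ →
    (b : ℝ) ≤ (p - 1 + e / 100) * u → 200 * ns u b A p ≤ m₁ →
    ((1 / 2) ^ (16 * u) / (10752 * 2 ^ u * D8 s u / η) +
      u * C₄ * ns u b A p * (10752 * 2 ^ u * D8 s u / η) / m₁ ^ 3) * (42 / η) *
      (10 ^ 6 * (u : ℝ) ^ 5 * 2 ^ b) * (2 : ℝ) ^ u ≤ C * (2 : ℝ) ^ ((p - ε') * u)

/-- ONX (about 60 lines), middle range, crossings.  `2^u D8 = 8·2^((1-s)u)`, `1/(m₁ η)² ≤ 2^(2δu)`: the left side is at most `8·10^6 C₀ u^5 2^((1-s+2δ+p-1+e/100+1)u)`, and `1 + (p-s) + 2δ + e/100 ≤ 104/100 < p - 1/10`.  Hypotheses: none. -/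
def StONX : Prop :=
  ∀ p s e C₀ : ℝ, Sm p s e → 0 < C₀ → ∃ C ε' : ℝ, 0 < C ∧ 0 < ε' ∧
    ∀ (δ : ℝ) (u b : ℕ) (η m₁ : ℝ), 0 < δ → δ ≤ 1 / 100 → 1 ≤ u → Nn u δ η m₁ →
    (b : ℝ) ≤ (p - 1 + e / 100) * u →
    C₀ * 2 ^ u * D8 s u / (η ^ 2 * m₁ ^ 2) * (10 ^ 6 * (u : ℝ) ^ 5 * 2 ^ b) * (2 : ℝ) ^ u ≤
      C * (2 : ℝ) ^ ((p - ε') * u)

/-- ONE (about 200 lines), middle range, few directions, small value level.  `β = b/u ∈ (p-1-e/100, p-1+e/100]`.  `1/(m₁ η) ≤ 2^(δu)`; `ns ≤ 1 + A 2^(u - b/p) ≤ (1 + A) 2^(((1 + e/100)/p)u)` (`2^(b+1) u ≥ 2^b`, `1 - (p-1-e/100)/p = (1+e/100)/p`); `2^u D8 = 8·2^((1-s)u)`; `1/η ≤ 100·2^((1/p - e/4)u)`.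
`M1 κ u b A p D8 (η/2) = κ (ns + 2^u D8/(η/2) + u √(ns 2^u D8)/(η/2))`.  Exponents of the three products with `2^(βu)` (`1/p < 77/100`):
(1) `p - 1 + e/100 + (1 + e/100)/p ≤ p - 1/5`.  (2) `p - 1 + e/100 + 1 - s + 1/p - e/4 ≤ 1`.  (3) `p - 1 + e/100 + (1+e/100)/(2p) + (1-s)/2 + 1/p - e/4 = (p/2 - 1/2 + 3/(2p)) + (p-s)/2 + e/100 + e/(200p) - e/4 ≤ p + e/2000 + e/100 + e/200 - e/4 ≤ p - e/5` (`3/(2p) = (p+1)/2`).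
With `δ ≤ e/100` and `u^6 ≤ C 2^((e/100)u)` the total exponent is at most `p - e/10`.  Hypotheses: none. -/
def StONE : Prop :=
  ∀ A p s e κ : ℝ, 0 ≤ A → Sm p s e → 1 ≤ κ → ∃ C ε' : ℝ, 0 < C ∧ 0 < ε' ∧
    ∀ (δ : ℝ) (u b : ℕ) (η m₁ : ℝ), 0 < δ → δ ≤ e / 100 → 1 ≤ u → Nn u δ η m₁ →
    (p - 1 - e / 100) * u < b → (b : ℝ) ≤ (p - 1 + e / 100) * u →
    (2 : ℝ) ^ (-((1 / p - e / 4) * u)) ≤ 100 * η →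
    70 / (m₁ * η) * (10 ^ 6 * (u : ℝ) ^ 5 * 2 ^ b) * (4 * M1 κ u b A p (D8 s u) (η / 2)) ≤
      C * (2 : ℝ) ^ ((p - ε') * u)

/-- ONI (about 60 lines), a large value level implies many directions.  `ns ≤ (1 + A) 2^(((1+e/100)/p)u)` as in ONE, and `(1+e/100)/p ≤ 1/p + e/100`, so `200 ns ≤ 200 (1+A) 2^((1/p+e/100)u) ≤ 2^((1/p+e/2)u)` for large `u`; `1000 ≤ 2^(u/2)` for large `u`.  Hypotheses: none. -/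
def StONI : Prop :=
  ∀ A p s e : ℝ, 0 ≤ A → Sm p s e → ∃ u₀ : ℕ, ∀ (u b : ℕ) (m₁ : ℝ), u₀ ≤ u → 1 ≤ u →
    (p - 1 - e / 100) * u < b → (2 : ℝ) ^ ((1 / p + e / 2) * u) ≤ m₁ →
    1000 ≤ m₁ ∧ 200 * ns u b A p ≤ m₁

/-- ONN (about 80 lines), few neighbours.  `(2^(q-4))^(-1/p) = 2^(-(q-4)/p) ≤ 2^4·2^(-((p-1+e)/p)u)` (`p > 1`), and `1 - (p-1+e)/p = 1/p - e/p`, `e/p ≥ 3e/4`: so the number is at most `1 + 16A 2^((1/p - 3e/4)u) ≤ 2^((1/p - e/2)u)/4` for large `u`.  `q ≥ (3/10) u`.  Hypotheses: none. -/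
def StONN : Prop :=
  ∀ A p s e : ℝ, 0 ≤ A → Sm p s e → ∃ u₀ : ℕ, ∀ (u q : ℕ) (m₁ : ℝ), u₀ ≤ u → 1 ≤ u →
    (p - 1 + e) * u ≤ q → (2 : ℝ) ^ ((1 / p - e / 2) * u) ≤ m₁ → 5 ≤ q ∧ u ≤ 2 ^ (q - 4) ∧
    1 + (2 : ℝ) ^ u * (A * ((2 ^ (q - 4) : ℕ) : ℝ) ^ (-(1 / p))) ≤ m₁ / 4

/-! ## Crossings -/

/-- OWD (about 100 lines), a rich cell with `a ≥ 0` has width less than one.  If `w = a + 1`: the cell is contained in `Sq y (2^(a+2))` (LGR: `|z 1 - y 1| < 2^a + 2^w`), so `η 2^(2a+1) ≤ D 4^(a+2)` (`Ctl`), `η ≤ 8D`.  If `w ≤ a`: the cell is the disjoint union of `2^(a-w)` cells `RQ s w w y'`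
(a dyadic interval of length `2^a` is the union of `2^(a-w)` dyadic intervals of length `2^w`; take `y' = pt (n 2^w) (pr s y + s n 2^w)`), so one of them has `F`-measure at least `η 4^w`; it is contained in `Sq y' (2^(w+1))`, so `η 4^w ≤ D 4^(w+1)`, `η ≤ 4D`.  Hypotheses: hLGR. -/
def StOWD : Prop :=
  ∀ (F : Set Pl) (s : ℝ) (a w : ℤ) (D η : ℝ) (y : Pl), |s| ≤ 1 → BM F → Ctl D F → 0 < D → 0 < η →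
    0 ≤ w → w ≤ a + 1 → Rich F s a w η y → η ≤ 8 * D

/-- OCL (about 250 lines), crossings of two ridges.  `a = k - u ≥ 0`, `w₁ = k - m₁ ≤ a + 1`, `w₂ = k - m₂`.  `V` is a union of cells `RQ s₂ a w₂ y`, that is of cells of index `(n,i) ∈ T ⊆ ℤ × ℤ` (`⌊y 0/2^a⌋ = n`, `⌊pr s₂ y/2^w₂⌋ = i`), each of area `2^(a+w₂)`, disjoint: `vol V = ∑_T 2^(a+w₂)`.
Let `x` be in the set, `y₂ ∈ V` the point of the first `Hit`, in the cell `(n,i)`: `x₂ = x - 2^k c₂` satisfies `n 2^a - 3·2^a ≤ x₂ 0 ≤ (n+1) 2^a + 3·2^a` (seven pieces of length `2^a`), `|pr s₂ x₂ - (i + 1/2) 2^w₂| ≤ 3·2^w₂`.  Let `y₁` be the point of the second `Hit`: by OWD (`10 D < η`) `w₁ < 0`.  `x₁ = x - 2^k c₁`,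
`|x₁ 0 - y₁ 0| ≤ 3·2^a`, so `x₁ + r 2^a E s₁`, `r = ⌊y₁ 0/2^a⌋ - ⌊x₁ 0/2^a⌋`, `|r| ≤ 3`, is in the same strip as `y₁`, and `pr s₁` of it is `pr s₁ x₁`: so it is in `Rs F s₁ a 0 η` (`w = w₁`, `2·2^w₁ ≤ 3·2^w₁`).
So the set is contained in the union over `(n,i) ∈ T`, the seven pieces and the seven `r`, of the translates of `Rs F s₁ a 0 η ∩ {g ≤ x 0 ≤ g + 2^a, |pr s₂ x - c| ≤ h}`, `h = 3·2^w₂` (a translate of such a parallelogram is one).  ECR with `b = 0` (`DQ 0 y ⊆ Sq y 1`, `Ctl`; second alternative):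
each has measure `≤ 1100 (D/η) 2^a 3·2^w₂`, and `49·1100·3 = 161700`.  Hypotheses: hPT, hLGR, hECR, hOWD. -/
def StOCL : Prop :=
  ∀ (F V : Set Pl) (s₁ s₂ : ℝ) (c₁ c₂ : Pl) (m₁ m₂ u : ℕ) (k : ℤ) (D η : ℝ), |s₁| ≤ 1 → |s₂| ≤ 1 →
    BM F → Ctl D F → 0 < D → 10 * D < η → (u : ℤ) ≤ k → u ≤ m₁ + 1 →
    1 ≤ |s₁ - s₂| * (2 : ℝ) ^ (k - (u : ℤ)) →
    (∀ y ∈ V, RQ s₂ (k - (u : ℤ)) (k - (m₂ : ℤ)) y ⊆ V) →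
    volume {x | Hit s₂ c₂ m₂ u k V x ∧
      Hit s₁ c₁ m₁ u k {y | Rich F s₁ (k - (u : ℤ)) (k - (m₁ : ℤ)) η y} x} ≤
      ENNReal.ofReal (161700 * D / η) * volume V

/-- OCP (about 220 lines), many hits with few neighbours.  `H_j = {x | Hit .. (CU .. τ k) x}`, `V_j = CU F (sl j) (m j) u η τ k`.  `V_j` is a union of cells `RQ (sl j) (k-u) (k - m j) y` (LFM; the cells in the definition are larger, LLM, `lad u 0 = -u`), and `V_j ⊆ {y | Rich F (sl j) (k-u) (k - m j) η y}` (`t = 0`, `thr u η 0 = η`), so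
`vol V_j ≤ (1/η) vol(F ∩ V_j) ≤ (1/η) vol(F ∩ UU_j)` (LFM, last part, for `Fml F (sl j) η V_j (k-u) (k - m j)`).  For a far pair (`ρ ≤ |sl j - sl j'|`) OCL with `s₂ = sl j`, `V = V_j`, `s₁ = sl j'` gives `vol(H_j ∩ H_j') ≤ 161700 (D/η) vol V_j` (`1 ≤ ρ 2^(k-u)`).  Sum over all far pairs: `≤ 161700 (D/η²) 2^u ∑_j vol(F ∩ UU_j)`.
If `x` is in the set, the number `J` of the `j` with `x ∈ H_j` is at least `m₁`, and for each of them at most `m₁/4` of the `j'` are not far, so there are at least `J (J - m₁/4) ≥ (3/4) m₁²` far ordered pairs with `x ∈ H_j ∩ H_j'`: Chebyshev (`toMeasurable` of the sets `H_j ∩ H_j'`).  `(4/3)·161700 ≤ 216000`.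
Hypotheses: hLGR, hLFM, hLLM, hOCL. -/
def StOCP : Prop :=
  ∀ (u τ : ℕ) (k : ℤ) (sl : ℕ → ℝ) (c : ℕ → Pl) (m : ℕ → ℕ) (F : Set Pl) (D η m₁ ρ : ℝ), 1 ≤ u →
    (u : ℤ) ≤ k → τ ≤ Mt u + 1 → BM F → Ctl D F → 0 < D → 10 * D < η → 0 < m₁ →
    (∀ j < 2 ^ u, |sl j| ≤ 1 ∧ u ≤ m j + 1) → 0 < ρ → 1 ≤ ρ * (2 : ℝ) ^ (k - (u : ℤ)) →
    (∀ j < 2 ^ u, ({j' : ℕ | j' < 2 ^ u ∧ |sl j' - sl j| < ρ}.ncard : ℝ) ≤ m₁ / 4) →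
    volume {x | m₁ ≤ ({j : ℕ | j < 2 ^ u ∧
        Hit (sl j) (c j) (m j) u k (CU F (sl j) (m j) u η τ k) x}.ncard : ℝ)} ≤
      ENNReal.ofReal (216000 * 2 ^ u * D / (η ^ 2 * m₁ ^ 2)) *
        ∑ j ∈ Finset.range (2 ^ u), volume (F ∩ UU F (sl j) (m j) u η τ k)

end Pool.Agent.Helper85.ES
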