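import Pool.Agent.Helper85.ES.StI1

/-!
# Project ES (MP_cb927e_an), part I: one class, age levels, the output `StOI`

`N = 2^u`, `K = 2^q`, `D8 s u = 8·2^(-su)`, `th i = 2^(-i)/36`.
-/

set_option autoImplicit false

open MeasureTheory Set Filter Topology
open scoped ENNReal RealInnerProductSpace

namespace Pool.Agent.Helper85.ES

open Pool.Agent.Helper68.LM (Pl BB Bd Av HL ft fm DQ)
open Pool.Agent.Helper20.RG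
open Pool.Agent.Helper20.RL
open Pool.Agent.Helper68.EP (Fb DQ3 Par Dat Sy q0 q1 DD Fo Rs)
open Pool.Agent.Helper61.EP (Nn D8 trS dat Yc)
open Pool.Agent.Helper68.ES (ag Eg th Rc hn Crit cr Lw)

/-! ## One class -/

/-- OCT (about 400 lines), one class.  Template: `Pool.Agent.Helper51.EP.M_CCT` (copy it); `K = 2^q` (natural number), `η = th i`, `D = D8 s u`, `γm = p - 1 - e/100`, `γp = p - 1 + e/100`.  The sum on the left is over a subset of `range K`, so (except in case (4)) it is at most the sum over `range K`.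
Choose `δ > 0` at most: the `δ₀` of ONC and OND (with `γ = γp`, `e ↦ e₂/2`), `e₂/2`, `1/100`, `e/200`, `(s-1)/2`; then `γm + 1 + δ < p` and `1 + δ < s`, so CNA (`γ = γm`) and CNB apply.  `10 D ≤ 2000 D ≤ η`.  From `Nn u δ (th i) m₁`: `36·2^i 2^(-δu) ≤ m₁` (*).
(1) `τ = 0`, or `τ = 16ub + l + 1` with `l < 16u`, `b ≤ γm u`: as in M_CCT (LXM, LPA, CNA).
(2) `b > γp u`: as in M_CCT (LXM or PXR, LPA, PPB), with ONC and OND; the alternative `2^((e₂/2)u) ≤ m₁ ∨ K ≤ Cf 2^((p-ε)u)` follows from (*) if `e₂ u ≤ i`, and from `K = 2^q`, if `q ≤ (p-ε)u`.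
(3) `γm u < b ≤ γp u` (so `b ≥ 1`, `b ≤ u`, `τ ≤ Mt u`).  (3a) `1000 ≤ m₁`, `200 ns ≤ m₁`: PXR, LPA and `vol(F ∩ ..) ≤ vol F` for every `j`, ONB (pct_sum with `a` = the coefficient of PXR, `10^6 u^5 2^b`, `2^u`).  Now let `m₁ < 1000` or `m₁ < 200 ns`.  (3b) `i ≤ (1/p - e/4)u`: `100 η ≥ 2^(-i) ≥ 2^(-(1/p-e/4)u)`: LXM, LPA, PPB, ONE.
(4) `(1/p - e/4)u < i` and `(p-1+e)u ≤ q`: (*) gives `m₁ ≥ 2^((1/p - e/2)u)` (`δ ≤ e/4`), so ONN: `5 ≤ q`, `u ≤ 2^(q-4)`, and by `Slo` (with `i ↦ 2^(q-4) ≥ 1`) every slope has at most `m₁/4` neighbours within `ρ = 2^(-2^(q-4))`.  For `k` in the sum: `k ≥ 7·2^(q-3) = 14·2^(q-4)`, so `k - u ≥ 2^(q-4)`, `1 ≤ ρ 2^(k-u)`: OCP for every such `k`.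
Sum over `k` (a subset of `range K`): LPA, `vol(F ∩ ..) ≤ vol F`, ONX with `C₀ = 216000`.  (To use pct_sum replace the sets for the other `k` by the empty set.)
(5) `(1/p - e/4)u < i` and `q < (p-1+e)u`: as `(p-1-e)u ≤ q` and not `Crit`: `|i - u/p| > eu`, so `i > (1/p + e)u`, (*) gives `m₁ ≥ 2^((1/p + e/2)u)`, and ONI contradicts the assumption that `m₁ < 1000` or `m₁ < 200 ns`.
Hypotheses: hLLM, hPCI, hLPA, hPPB, hLXM, hPXR, hCNA, hCNB, hOEX, hONC, hOND, hONB, hONX, hONE, hONI, hONN, hOCP. -/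
def StOCT : Prop :=
  ∀ A p s e ε e₂ Cf : ℝ, 0 ≤ A → Sm p s e → 1 ≤ Cf → 0 < ε → 0 < e₂ →
    ∃ (u₀ : ℕ) (δ C ε' : ℝ), 0 < δ ∧ 0 < C ∧ 0 < ε' ∧
    ∀ (u q i τ : ℕ) (sl : ℕ → ℝ) (c : ℕ → Pl) (m : ℕ → ℕ) (F : Set Pl) (m₁ : ℝ), u₀ ≤ u → 2 ≤ u →
      Slo u A p sl → (∀ j < 2 ^ u, ‖c j‖ ≤ Cf ∧ u ≤ m j + 1) → (2 : ℝ) ^ q ≤ Cf * (2 : ℝ) ^ (p * u) →
      (p - 1 - e) * u ≤ q → ¬ Crit p e u q i → (e₂ * u ≤ i ∨ (q : ℝ) ≤ (p - ε) * u) →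
      BM F → Ctl (D8 s u) F → Nn u δ (th i) m₁ → τ ≤ Mt u + 1 →
      ∑ k ∈ (Finset.range (2 ^ q)).filter (fun k => 7 * 2 ^ q ≤ 8 * k),
        volume {x | m₁ ≤ ({j : ℕ | j < 2 ^ u ∧
          Hit (sl j) (c j) (m j) u k (CU F (sl j) (m j) u (th i) τ k) x}.ncard : ℝ)} ≤
        ENNReal.ofReal (C * (2 : ℝ) ^ ((p - ε') * u)) * volume F

/-- OCE (about 150 lines), pigeonhole over the steps of the ladder.  `ε₃ = δ/2`.  Let `x` be in the set for `k`: at least `M = 2^(i - ε₃u)` of the `j` satisfy `Hit .. {y | Rich .. (th i) y} x`; by LPG each of them satisfies `Hit .. (CU .. τ k) x` for some `τ ≤ Mt u + 1`, so for some `τ` at least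
`m₁ = M/(Mt u + 2)` of them do.  If `m₁ > 2^u` this is impossible.  Otherwise `Nn u δ (th i) m₁`: `m₁ th i = 2^(-ε₃u)/(36 (Mt u + 2)) ≥ 2^(-δu)` for large `u` (`Mt u + 2 ≤ 66 u²`).  OCT for each of the `Mt u + 2` values `τ`; `66 u² ≤ C 2^((ε'/2)u)`.  Hypotheses: hLPG, hOCT. -/
def StOCE : Prop :=
  ∀ A p s e ε e₂ Cf : ℝ, 0 ≤ A → Sm p s e → 1 ≤ Cf → 0 < ε → 0 < e₂ →
    ∃ (u₀ : ℕ) (ε₃ C ε' : ℝ), 0 < ε₃ ∧ 0 < C ∧ 0 < ε' ∧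
    ∀ (u q i : ℕ) (sl : ℕ → ℝ) (c : ℕ → Pl) (m : ℕ → ℕ) (F : Set Pl), u₀ ≤ u →
      Slo u A p sl → (∀ j < 2 ^ u, ‖c j‖ ≤ Cf ∧ u ≤ m j + 1) → (2 : ℝ) ^ q ≤ Cf * (2 : ℝ) ^ (p * u) →
      (p - 1 - e) * u ≤ q → ¬ Crit p e u q i → (e₂ * u ≤ i ∨ (q : ℝ) ≤ (p - ε) * u) →
      BM F → Ctl (D8 s u) F →
      ∑ k ∈ (Finset.range (2 ^ q)).filter (fun k => 7 * 2 ^ q ≤ 8 * k),
        volume {x | (2 : ℝ) ^ ((i : ℝ) - ε₃ * u) ≤ ({j : ℕ | j < 2 ^ u ∧ Hit (sl j) (c j) (m j) u k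
          {y | Rich F (sl j) ((k : ℤ) - (u : ℤ)) ((k : ℤ) - (m j : ℤ)) (th i) y} x}.ncard : ℝ)} ≤
        ENNReal.ofReal (C * (2 : ℝ) ^ ((p - ε') * u)) * volume F

/-- OSC (about 150 lines), the same at the base scale `t`.  Let `F' = {z | 2^t z ∈ F}`.  First part: with `y = 2^t y'`: `F ∩ RQ s a b y` is the image of `F' ∩ RQ s (a-t) (b-t) y'` under `z ↦ 2^t z` (`⌊2^t z 0/2^a⌋ = ⌊z 0/2^(a-t)⌋`, `pr s (2^t z) = 2^t pr s z`), measure `4^t` times (LRS), so `Rich F s a b θ (2^t y') ↔ Rich F' s (a-t) (b-t) θ y'`;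
`Hit s c m u (t+k) V (2^t x) ↔ Hit s c m u k {z | 2^t z ∈ V} x` (`2^t x - 2^(t+k) c = 2^t (x - 2^k c)`; multiply the inequalities by `2^t`).  So the set for `F`, scale `t + k`, is mapped to the set for `F'`, scale `k`, by `x ↦ 2^(-t) x`; LRS: measure `4^(-t)` times, `vol F' = 4^(-t) vol F`; `Ctl (D8 s u) F'`: LRS and the hypothesis with `k' = t + k`, `Sq (2^t y) (2^t 2^k)`.
(As CCS, `Pool.Agent.Helper60.EP.M_CCS`.)  Hypotheses: hLRS, hOCE. -/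
def StOSC : Prop :=
  ∀ A p s e ε e₂ Cf : ℝ, 0 ≤ A → Sm p s e → 1 ≤ Cf → 0 < ε → 0 < e₂ →
    ∃ (u₀ : ℕ) (ε₃ C ε' : ℝ), 0 < ε₃ ∧ 0 < C ∧ 0 < ε' ∧
    ∀ (u q i : ℕ) (t : ℤ) (sl : ℕ → ℝ) (c : ℕ → Pl) (m : ℕ → ℕ) (F : Set Pl), u₀ ≤ u →
      Slo u A p sl → (∀ j < 2 ^ u, ‖c j‖ ≤ Cf ∧ u ≤ m j + 1) → (2 : ℝ) ^ q ≤ Cf * (2 : ℝ) ^ (p * u) →
      (p - 1 - e) * u ≤ q → ¬ Crit p e u q i → (e₂ * u ≤ i ∨ (q : ℝ) ≤ (p - ε) * u) →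
      BM F → (∀ (y : Pl) (k' : ℤ), t ≤ k' → volume (F ∩ Sq y ((2 : ℝ) ^ k')) ≤
        ENNReal.ofReal (D8 s u * (4 : ℝ) ^ k')) →
      ∑ k ∈ (Finset.range (2 ^ q)).filter (fun k => 7 * 2 ^ q ≤ 8 * k),
        volume {x | (2 : ℝ) ^ ((i : ℝ) - ε₃ * u) ≤ ({j : ℕ | j < 2 ^ u ∧ Hit (sl j) (c j) (m j) u (t + (k : ℤ))
          {y | Rich F (sl j) (t + (k : ℤ) - (u : ℤ)) (t + (k : ℤ) - (m j : ℤ)) (th i) y} x}.ncard : ℝ)} ≤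
        ENNReal.ofReal (C * (2 : ℝ) ^ ((p - ε') * u)) * volume F

/-! ## Age levels -/

/-- OEG (about 120 lines), the sets `Eg` and the windows.  `BM`, `⊆ E`: EFB.  For `z ∈ E` the set `{b | z ∈ Fb E D b}` is an up-set of `ℤ` (EFB, monotone), possibly `∅` or `ℤ`; if `a < b'` the number of the `k` with `k + b' ` in it and `k + a` not in it is at most `b' - a`: second part with `b' = -ag q`, `a = -2^(q+1)` (number `≤ 2^(q+1)`), third part: the `l` with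
`(l-16)G < κ ≤ (l-7)G` (`κ` the least element): at most `9` (`lintegral_tsum` of indicators).  Fourth: if the set is nonempty let `z` be a point of it: `Sq y (2^k') ⊆ Sq z (2^(k'+1)) ⊆ DQ3 (k'+1) z`, `z ∈ Fb E D ((l-7)G)`, `(l-7)G ≤ k' + 1`: `≤ D 4^(k'+1)`.
Fifth: for `l G ≤ k < (l+1) G`: `k - 8G ≤ (l-7)G` and `(l-16)G ≤ k - 16G`; `8G = 2^q = ag q` (`q ≥ 3`), `16G = 2^(q+1)`.  Hypotheses: hEFB. -/
def StOEG : Prop :=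
  ∀ (E : Set Pl) (D : ℝ), BM E → 0 < D →
    (∀ (q : ℕ) (k : ℤ), BM (Eg E D q k) ∧ Eg E D q k ⊆ E) ∧
    (∀ q : ℕ, ∑' k : ℤ, volume (Eg E D q k) ≤ (2 : ℝ≥0∞) ^ (q + 1) * volume E) ∧
    ∀ G : ℕ, 1 ≤ G →
      (∀ l : ℤ, BM (Fb E D ((l - 7) * G) \ Fb E D ((l - 16) * G))) ∧
      (∑' l : ℤ, volume (Fb E D ((l - 7) * G) \ Fb E D ((l - 16) * G)) ≤ 9 * volume E) ∧
      (∀ (l : ℤ) (y : Pl) (k' : ℤ), (l - 7) * G ≤ k' →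
        volume ((Fb E D ((l - 7) * G) \ Fb E D ((l - 16) * G)) ∩ Sq y ((2 : ℝ) ^ k')) ≤
          ENNReal.ofReal (4 * D * (4 : ℝ) ^ k')) ∧
      ∀ (q : ℕ) (k l : ℤ), 3 ≤ q → G = 2 ^ (q - 3) → l * G ≤ k → k < (l + 1) * G →
        Eg E D q k ⊆ Fb E D ((l - 7) * G) \ Fb E D ((l - 16) * G)

/-- OLV (about 200 lines), age levels `q ≥ (p-1-e)u`.  `p = P.p`, `s = P.s`, `D = DD P u = 2^(-su)`, `8D = D8 s u`; `(p-1-e)u ≥ 3` for large `u`, so `q ≥ 3`.  `G = 2^(q-3)`.  `∑_(k ∈ ℤ) = ∑_(l ∈ ℤ) ∑_(l G ≤ k < (l+1) G)`.  For `k` in the block `l`: `t = (l-7)G`, `k = t + k'`, `7G ≤ k' < 8G`, so `k' < 2^q` and `7·2^q ≤ 8k'`; OEG: `Eg E D q k ⊆ F_l = Fb E D ((l-7)G) \\ Fb E D ((l-16)G)`,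
`Rc`, `Hit` are monotone in the set, so the set for `k` is contained in the set of OSC for `F_l`, base scale `t`, `k'` (`Rc Δ u j k θ F = {y | Rich F (Δ.sl u j) (k-u) (k - Δ.fl u j) θ y}`).  OSC (density `4D ≤ D8`, OEG) for every `l`: `≤ C 2^((p-ε')u) vol F_l`, and `∑_l vol F_l ≤ 9 vol E` (OEG).
Hypotheses: hOEX, hOEG, hOSC. -/
def StOLV : Prop :=
  ∀ (P : Par) (A e ε e₂ Cf : ℝ), 0 ≤ A → Sm P.p P.s e → 1 ≤ Cf → 0 < ε → 0 < e₂ →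
    ∃ (u₀ : ℕ) (ε₃ C ε' : ℝ), 0 < ε₃ ∧ 0 < C ∧ 0 < ε' ∧
    ∀ (Δ : Dat) (ct : ℕ → ℕ → Pl) (u q i : ℕ) (E : Set Pl), u₀ ≤ u → Slo u A P.p (Δ.sl u) →
      (∀ j < 2 ^ u, ‖ct u j‖ ≤ Cf ∧ u ≤ Δ.fl u j + 1) → (2 : ℝ) ^ q ≤ Cf * (2 : ℝ) ^ (P.p * u) →
      (P.p - 1 - e) * u ≤ q → ¬ Crit P.p e u q i → (e₂ * u ≤ i ∨ (q : ℝ) ≤ (P.p - ε) * u) → BM E →
      ∑' k : ℤ, volume {x | (2 : ℝ) ^ ((i : ℝ) - ε₃ * u) ≤ hn P Δ ct u q i k E x} ≤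
        ENNReal.ofReal (C * (2 : ℝ) ^ ((P.p - ε') * u)) * volume E

/-- OTR (about 120 lines), age levels `q < (p-1-e)u`, any threshold exponent `ε₃ ≤ e/2`.  For one `k`, `F = Eg E D q k`: `{x | Hit .. (Rc Δ u j k (th i) F) x}` is a translate (by `2^k c`) of `{x' | ∃ y ∈ V, |x' 0 - y 0| ≤ 3·2^(k-u), |pr x' - pr y| ≤ 2·2^(k-m)}`, `V = {y | Rich F (sl) (k-u) (k-m) (th i) y}`,
of measure at most `7·5/(th i) vol F` (LER with `V = Z`, `p = 3`, `q = 2`, both thresholds `th i`; LFM, LGR for `Fml`).  Markov (as LXM, `Pool.Agent.Helper41.RL.M_LXM`): `vol{2^(i-ε₃u) ≤ hn} ≤ 2^(-i+ε₃u) 2^u 35·36·2^i vol F = 1260·2^((1+ε₃)u) vol F`.  Sum over `k`: OEG: `∑_k vol(Eg E D q k) ≤ 2^(q+1) vol E ≤ 2·2^((p-1-e)u) vol E`: total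
`2520·2^((p - e + ε₃)u) ≤ 2520·2^((p - e/2)u)`.  Hypotheses: hLGR, hLFM, hLER, hOEG. -/
def StOTR : Prop :=
  ∀ (P : Par) (e ε₃ : ℝ) (Δ : Dat) (ct : ℕ → ℕ → Pl) (u q i : ℕ) (E : Set Pl), 0 < e → 0 < ε₃ → ε₃ ≤ e / 2 →
    1 ≤ u → (q : ℝ) < (P.p - 1 - e) * u → BM E →
    ∑' k : ℤ, volume {x | (2 : ℝ) ^ ((i : ℝ) - ε₃ * u) ≤ hn P Δ ct u q i k E x} ≤
      ENNReal.ofReal (2520 * (2 : ℝ) ^ ((P.p - e / 2) * u)) * volume E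

/-- ODE (about 200 lines), decomposition by age.  As the second part of CFB (`Pool.Agent.Helper47.EP.M_CFB`) and LAP (`Pool.Agent.Helper2.RL.M_LAP`).  `Y .. x` is an integral of `g` over points of `S = Sq x ((R+3) 2^k)`.  Let `z ∈ E ∩ S`.  By `Loc` (constant `D/4`): `z ∈ Ck E (D/4) k ⊆ Fb E D k = Fb E D (k - ag 0)` (CFB, first part).
`ag (q+1) = 2^(q+1)`, so `Eg E D q k = Fb E D (k - ag q) \\ Fb E D (k - ag (q+1))`: if `z ∉ Fb E D (k - ag Q)` then `z ∈ Eg E D q k` for some `q < Q`.  So on `S`: `1_E ≤ 1_(Fb E D (k-2^Q)) + ∑_{q<Q} 1_(Eg E D q k)` (`Q ≥ 1`: `ag Q = 2^Q`), and the same without the first term for `E \\ Fb E D (k - 2^Q)`; `Y` is additive and monotone (YB), `BM` by OEG.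
`Y` of `1_far`, `far = Fb E D (k-2^Q)`, is at most `D`: the box averages are `4^(-(k-m)-1) vol(far ∩ Sq z' (2^(k-m)))`, and if this set contains `z` then it is contained in `E ∩ Sq z (2^(k-m+1)) ⊆ E ∩ DQ3 (k-m+1) z`, and `k - m + 1 ≥ k - 2^Q`: measure `≤ D 4^(k-m+1)`.
Hypotheses: hPT, hMEA, hYB, hLAM, hEFB, hCFB, hOEG. -/
def StODE : Prop :=
  ∀ (E : Set Pl) (D R Cf : ℝ) (Q : ℕ) (s : ℝ) (c : Pl) (m u : ℕ) (x : Pl) (k : ℤ), BM E → 0 < D →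
    |s| ≤ 1 → ‖c‖ ≤ R → u ≤ m + 1 → 1 ≤ Q → R + 10 ≤ Cf → Loc Cf (D / 4) (E.indicator 1) x →
    (m ≤ 2 ^ Q → Y s c m (1 / (2 : ℝ) ^ u) k (E.indicator 1) x ≤
      D + ∑ q ∈ Finset.range Q, Y s c m (1 / (2 : ℝ) ^ u) k ((Eg E D q k).indicator 1) x) ∧
    Y s c m (1 / (2 : ℝ) ^ u) k ((E \ Fb E D (k - 2 ^ Q)).indicator 1) x ≤
      ∑ q ∈ Finset.range Q, Y s c m (1 / (2 : ℝ) ^ u) k ((Eg E D q k).indicator 1) x

/-- OVL (about 150 lines), one age level at a point.  `F` is `BM`, `v_j = Y .. (F.indicator 1) x ∈ [0,1]` (YB).  The `j` with `v_j ≤ 2^(-2u)` contribute at most `2^u 2^(-2u)`; for the others with `v_j < t` there is `i < 2u` with `2^(-i-1) < v_j ≤ 2^(-i)`, and `2^(-i-1) < t`.  LGY with `η = 2^(-i-1)`, `η/18 = th i`: such a `j` satisfies `Hit .. {y | Rich F .. (th i) y} x`.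
So the sum of the `v_j` of level `i` is at most `2^(-i)` times the number of the `j < 2^u` with this property.  Hypotheses: hYB, hLGY. -/
def StOVL : Prop :=
  ∀ (u : ℕ) (k : ℤ) (t : ℝ) (sl : ℕ → ℝ) (c : ℕ → Pl) (m : ℕ → ℕ) (F : Set Pl) (x : Pl), 1 ≤ u → BM F →
    (∀ j < 2 ^ u, |sl j| ≤ 1 ∧ u ≤ m j + 1) →
    trS (2 ^ u) t (fun j => Y (sl j) (c j) (m j) (1 / (2 : ℝ) ^ u) k (F.indicator 1) x) ≤
      (2 : ℝ) ^ (-(u : ℤ)) + ∑ i ∈ (Finset.range (2 * u)).filter (fun i : ℕ => (2 : ℝ) ^ (-(i : ℤ) - 1) < t),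
        (2 : ℝ) ^ (-(i : ℤ)) * ({j : ℕ | j < 2 ^ u ∧ Hit (sl j) (c j) (m j) u k
          {y | Rich F (sl j) (k - (u : ℤ)) (k - (m j : ℤ)) (th i) y} x}.ncard : ℝ)

/-- OPW (about 300 lines), the pointwise bound.  `D = DD P u`, `s = P.s`, `v_j = Y_j 1_E x`, `v_j^q = Y_j 1_(Eg E D q k) x ≤ v_j` (YB, monotone), `t = 2^(-(g/8)u)`.  ODE (`Q`): `v_j ≤ D + ∑_{q<Q} v_j^q`, so `trS (2^u) t v ≤ 2^u D + ∑_{q<Q} trS (2^u) t v^q` (`v_j < t` implies `v_j^q < t`; all terms `≥ 0`).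
`q0 P u ≥ 1`, `q0 P u ≤ 2u` for large `u`; `Fo P u k (q0 P u) E = Fb E D (k - 2^(q0 P u))`, ODE (`Q ↦ q0 P u`): the second sum of `Lw` is at most `∑_{q<q0} ∑_j v_j^q = ∑_{q<q0} trS (2^u) 2 v^q` (`v_j^q ≤ 1 < 2`).  OVL for each: the count is `hn P (dat τ) (ce c φ) u q i k E x` (by definition).
So `Lw ≤ 2^u D + 4u 2^(-u) + ∑_{(q,i) ∈ S₁} 2^(-i) hn + ∑_{(q,i) ∈ S₂} 2^(-i) hn`, `S₁ = {q < Q, i < 2u, 2^(-i-1) < t}`, `S₂ = {q < q0, i < 2u}`.  The critical pairs of `S₁` and of `S₂` contribute at most `cr` each (`Q ≤ 2u`, all terms `≥ 0`).  For the others the hypothesis applies: in `S₁` `i + 1 > (g/8)u`, so `e₂ u ≤ i` for large `u` (`e₂ = g/16`);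
in `S₂` `q ≤ (p - P.ε)u` (`q0 P u = ⌊(p-P.ε)u⌋`); each contributes at most `2^(-ε₃'u)`, and there are at most `8u²`.  `2^u D + 4u 2^(-u) + 8u² 2^(-ε₃'u) ≤ 2^(-ε₃u)` for large `u`, `ε₃ = min(ε₃', s - 1, 1)/2`.  `|τ| ≤ 1`: Graph.  Hypotheses: hYB, hODE, hOVL, hOEG. -/
def StOPW : Prop :=
  ∀ (P : Par) (e ε₃' R : ℝ), 0 < ε₃' → ∃ (u₀ : ℕ) (ε₃ : ℝ), 0 < ε₃ ∧
    ∀ (φ τ : ℝ → ℝ) (c : Pl) (u Q : ℕ) (k : ℤ) (E : Set Pl) (x : Pl), Graph φ τ → u₀ ≤ u →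
      (∀ j < 2 ^ u, ‖ce c φ u j‖ ≤ R ∧ u ≤ mm τ u j + 1 ∧ mm τ u j ≤ 2 ^ Q) → 1 ≤ Q → Q ≤ 2 * u →
      BM E → Loc (R + 10) (DD P u / 4) (E.indicator 1) x →
      (∀ q i : ℕ, (q < Q ∨ q < q0 P u) → i < 2 * u → ¬ Crit P.p e u q i →
        (P.g / 16 * u ≤ i ∨ (q : ℝ) ≤ (P.p - P.ε) * u) →
        hn P (dat τ) (ce c φ) u q i k E x < (2 : ℝ) ^ ((i : ℝ) - ε₃' * u)) →
      Lw P c φ τ u k E x ≤ (2 : ℝ) ^ (-(ε₃ * u)) + 4 * cr P (dat τ) (ce c φ) e u k E x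

/-- OIF (about 300 lines), the output.  Template: `Pool.Agent.Helper81.EP.M_LXC` (LXC).  Given `p`, `e`: `e' = min e (1/100)`, `s₀ = p - e'/1000`.  For `P` with `P.p = p`, `s₀ < P.s`: `Sm P.p P.s e'`.  `cr` is monotone in `e` (`Crit p e' → Crit p e`, terms `≥ 0`), so it suffices to prove the claim with `cr P .. e'`.
`Cf₀ ≥ 1` with `‖ce c φ u j‖ ≤ ‖c‖ + |φ 0| + 3 ≤ Cf₀` (SYS), `Cf = Cf₀ + 10`, and `Cf₁ ≥ Cf₀` such that `2 (KA A₁ p u + 3) ≤ Cf₁ 2^(pu)` and `2^(q0 P u) ≤ Cf₁ 2^(pu)`; `Q` = the least number `≥ 1` with `KA A₁ p u ≤ 2^Q`: then `2^q ≤ Cf₁ 2^(pu)` for `q ≤ Q`, `Q ≤ 2u` for large `u` (`p < 131/100`).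
`Slo u A₁ p (fun j => τ (tm u j))`: SYS (`slope`, `sep`); `u ≤ mm + 1`, `mm ≤ KA`: MM.  OLV (`A = A₁`, `e'`, `ε = P.ε`, `e₂ = P.g/16`, `Cf₁`) gives `ε₃`, take `ε₃' = min(ε₃, e'/2)`; for this smaller number the sets are smaller; OTR with `ε₃'`.  For `u ≥ u₀` let `X_(l,u)` be the union over the `q < 2u` with `2^q ≤ Cf₁ 2^(pu)`, `i < 2u`, not critical, (`e₂ u ≤ i` or `q ≤ (p-P.ε)u`), and over `k ∈ ℤ`, of
`{x | 2^(i-ε₃'u) ≤ hn P (dat τ) (ce c φ) u q i k (Gf f (l+u)) x}`: measure `≤ 4u² C 2^((p-ε')u) vol(Gf f (l+u)) ≤ C' 2^((p-ε'/2)u) vol(Gf f (l+u))` (`Gf f m` is `BM`, as `f` is `BB`).  If `x ∉ X_(l,u)`, `Loc` gives the conclusion of OPW for all `k` (`Loc Cf (2^(-su)/4)`, `DD P u = 2^(-P.s u)`), so `x` is not in the set of the claim for this `u`.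
So the set of the claim is contained in `⋃_{u ≥ u₀} X_(l,u)`; sum over `u` and `l` with weights `2^(pl)`: LSQ (fourth clause, `ε = ε'/2`).  (In OPW `q < Q ∨ q < q0 P u`; both imply `2^q ≤ Cf₁ 2^(pu)` and `q < 2u`.)  Hypotheses: hMM, hSYS, hLSQ, hOEX, hOLV, hOTR, hOPW. -/
def StOIF : Prop := Pool.Agent.Helper68.ES.StOI

end Pool.Agent.Helper85.ES
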